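import Pool.Agent.Lib_MP_f98417_coJ.Final

set_option autoImplicit false

namespace Pool.Agent.Results.MP_f98417_co.Hermitian

open Configuration Pool.Agent.I6

/-- The Moufang set of an infinite plane with a group of Lenz-Barlotti type I.6 is not the
Moufang set of the self-adjoint elements of a ring with involution without nonzero nilpotents
all of whose nonzero self-adjoint elements are invertible. -/
theorem result {P L : Type} [Membership P L] [ProjectivePlane P L] [Infinite P]
    (Γ : Subgroup (Equiv.Perm P × Equiv.Perm L)) (v : P) (W : L) (σ : P → L)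
    (H : TypeI6 Γ v W σ) {R : Type} [Ring R] [StarRing R] (hred : ∀ x : R, x * x = 0 → x = 0)
    (inv : selfAdjoint R → selfAdjoint R)
    (hinv : ∀ x : selfAdjoint R, x ≠ 0 → (x : R) * inv x = 1) (pt : Option (selfAdjoint R) → P) :
    ¬ IsMoufangIso Γ v W σ inv pt :=
  plane_herm H hred inv hinv pt

end Pool.Agent.Results.MP_f98417_co.Hermitian
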