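import Pool.Agent.Lib_MP_f98417_co.Final

set_option autoImplicit false

namespace Pool.Agent.Results.MP_f98417_co.RootGroups

open Configuration Pool.Agent.I6

/-- Root groups of infinite planes with a group of Lenz-Barlotti type I.6: either elementary
abelian of exponent three, or nonabelian, torsion-free, uniquely divisible and without proper
nontrivial characteristic subgroups. -/
theorem result {P L : Type} [Membership P L] [ProjectivePlane P L] [Infinite P]
    (Γ : Subgroup (Equiv.Perm P × Equiv.Perm L)) (v : P) (W : L) (σ : P → L)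
    (H : TypeI6 Γ v W σ) (x : P) (hx : x ∈ W) (hxv : x ≠ v) :
    ((∀ a b : persp Γ x (σ x), a * b = b * a) ∧ (∀ a : persp Γ x (σ x), a ^ 3 = 1)) ∨
    ((∃ a b : persp Γ x (σ x), a * b ≠ b * a) ∧
      (∀ K : Subgroup (persp Γ x (σ x)), K.Characteristic → K = ⊥ ∨ K = ⊤) ∧
      (∀ a : persp Γ x (σ x), a ≠ 1 → ¬ IsOfFinOrder a) ∧
      (∀ k : ℕ, 0 < k → ∀ a : persp Γ x (σ x), ∃! b : persp Γ x (σ x), b ^ k = a)) :=
  dichotomy_plane H hx hxv

end Pool.Agent.Results.MP_f98417_co.RootGroups
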