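import Pool.Agent.Lib_MP_f98417_coJ.Final

set_option autoImplicit false

namespace Pool.Agent.Results.MP_f98417_co.ScalarField

open Configuration Pool.Agent.I6

/-- If the Moufang set of an infinite plane with a group of Lenz-Barlotti type I.6 comes from an
inversion on a vector space over a field `K` with the identities of a Jordan division algebra
over `K`, then `K` has at most three elements. -/
theorem result {P L : Type} [Membership P L] [ProjectivePlane P L] [Infinite P]
    (Γ : Subgroup (Equiv.Perm P × Equiv.Perm L)) (v : P) (W : L) (σ : P → L)
    (H : TypeI6 Γ v W σ) {K V : Type} [Field K] [AddCommGroup V] [Module K V]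
    (J : HuaSystem K V) (pt : Option V → P) (hpt : IsMoufangIso Γ v W σ J.inv pt) :
    ∀ c : K, c = 0 ∨ c = 1 ∨ c = -1 :=
  plane_field H J pt hpt

end Pool.Agent.Results.MP_f98417_co.ScalarField
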